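import Pool.Agent.H.MP_254873_ag.Defs

set_option autoImplicit false
open MvPolynomial Module

namespace Pool.Agent.H.MP_254873_ag
variable {n : ℕ}

theorem dg {f : S n} {k : ℕ} (h : f.IsHomogeneous k) {s : Fin n →₀ ℕ} (hs : coeff s f ≠ 0) :
    s.degree = k := by
  rw [Finsupp.degree_eq_weight_one]; exact h hs

theorem fr (n d : ℕ) : finrank ℂ (homogeneousSubmodule (Fin n) ℂ d) = (n + d - 1).choose d := by
  classical
  have e : homogeneousSubmodule (Fin n) ℂ d = Submodule.span ℂ (Set.range fun s :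
      (Finset.univ : Finset (Fin n)).finsuppAntidiag d => (monomial s.1 (1 : ℂ) : S n)) := by
    refine le_antisymm (fun F hF => ?_) (Submodule.span_le.mpr ?_)
    · rw [F.as_sum]
      refine Submodule.sum_mem _ fun s hs => ?_
      rw [← mul_one (coeff s F), ← smul_eq_mul, ← smul_monomial]
      refine Submodule.smul_mem _ _ (Submodule.subset_span ⟨⟨s, ?_⟩, rfl⟩)
      simpa [Finsupp.degree_eq_sum] using dg hF (mem_support_iff.mp hs)
    · rintro _ ⟨⟨s, hs⟩, rfl⟩
      refine isHomogeneous_monomial _ ?_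
      simpa [Finsupp.degree_eq_sum] using hs
  have li : LinearIndependent ℂ fun s : (Finset.univ : Finset (Fin n)).finsuppAntidiag d =>
      (monomial s.1 (1 : ℂ) : S n) :=
    (basisMonomials (Fin n) ℂ).linearIndependent.comp _ Subtype.val_injective
  rw [e, finrank_span_eq_card li, Fintype.card_coe, Finset.card_finsuppAntidiag_nat_eq_choose]
  simp

instance (n d : ℕ) : Module.Finite ℂ (homogeneousSubmodule (Fin n) ℂ d) :=
  Module.Finite.iff_fg.mpr (homogeneousSubmodule_fg (Fin n) ℂ d)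

theorem rk {V W : Type} [AddCommGroup V] [Module ℂ V] [AddCommGroup W] [Module ℂ W] (p : Submodule ℂ V)
    [Module.Finite ℂ p] (f : V →ₗ[ℂ] W) :
    finrank ℂ (p.map f) + finrank ℂ ↥(p ⊓ LinearMap.ker f) = finrank ℂ p := by
  rw [← LinearMap.range_domRestrict, ← (f.domRestrict p).finrank_range_add_finrank_ker,
    LinearMap.ker_domRestrict, ← Submodule.map_comap_subtype, Submodule.finrank_map_subtype_eq]

theorem hf_low {I : Ideal (S n)} {i : ℕ} (h : ∀ g ∈ I, g.IsHomogeneous i → g = 0) :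
    hf I i = (n + i - 1).choose i := by
  have := rk (homogeneousSubmodule (Fin n) ℂ i) (Ideal.Quotient.mkₐ ℂ I).toLinearMap
  rw [show homogeneousSubmodule (Fin n) ℂ i ⊓ (Ideal.Quotient.mkₐ ℂ I).toLinearMap.ker = ⊥ from
    (Submodule.eq_bot_iff _).mpr fun g hg => h g (Ideal.Quotient.eq_zero_iff_mem.mp hg.2) hg.1,
    finrank_bot, fr] at this
  exact this

attribute [local instance] MvPolynomial.gradedAlgebra in
theorem hc_mul {l : S n} {a : ℕ} (hl : l.IsHomogeneous a) (q : S n) (k : ℕ) :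
    homogeneousComponent (a + k) (l * q) = l * homogeneousComponent k q := by
  have := DirectSum.coe_decompose_mul_add_of_left_mem (homogeneousSubmodule (Fin n) ℂ) (b := q) (j := k) hl
  rwa [show ∀ (p : S n) i, (DirectSum.decompose (homogeneousSubmodule (Fin n) ℂ) p i : S n) =
    homogeneousComponent i p from decomposition.decompose'_apply, show ∀ (p : S n) i,
    (DirectSum.decompose (homogeneousSubmodule (Fin n) ℂ) p i : S n) =
    homogeneousComponent i p from decomposition.decompose'_apply] at this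

theorem act_one (f : S n) : act 1 f = f := by
  simp only [act, support_one, Finset.sum_singleton]
  simp [← f.as_sum]

theorem act_high {g f : S n} {d : ℕ} (hf : f.IsHomogeneous d) (h : ∀ a ∈ g.support, d < a.degree) :
    act g f = 0 := by
  refine Finset.sum_eq_zero fun a ha => Finset.sum_eq_zero fun b hb => ?_
  obtain ⟨i, hi⟩ : ∃ i, b i < a i := by
    by_contra hc
    push Not at hc
    have := h a ha
    rw [← dg hf (mem_support_iff.mp hb), Finsupp.degree_eq_sum, Finsupp.degree_eq_sum] at this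
    exact absurd (Finset.sum_le_sum fun i _ => hc i) this.not_ge
  rw [Finset.prod_eq_zero (Finset.mem_univ i) (by simp [Nat.descFactorial_of_lt hi]), mul_zero, map_zero]

theorem one_not {I : Ideal (S n)} {f : S n} (f0 : f ≠ 0) (h : Apolar I f) : 1 ∉ I :=
  fun h1 => f0 ((act_one f).symm.trans (h 1 h1))

theorem up1 (d : ℕ) : M 1 d ≤ 0 := by
  refine sSup_le ?_
  rintro _ ⟨f, I, D, f0, -, hI, hD, hr, rfl⟩
  have z : ∀ i, hf I i = 1 := fun i => (hf_low fun g hg h => by_contra fun g0 => by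
    refine one_not f0 hr.1 (hI.2 1 ⟨i, fun j => ?_⟩)
    have e : g = C (coeff (Finsupp.single j i) g) * X j ^ i := by
      ext s
      rw [coeff_C_mul, coeff_X_pow]
      split_ifs with hs
      · simp [hs]
      · refine by_contra fun hc => hs (Finsupp.ext fun k => ?_)
        have := dg h (by simpa using hc)
        rw [Subsingleton.elim k j, Finsupp.single_eq_same, ← this, Finsupp.degree_eq_sum, Fin.sum_univ_one,
          Subsingleton.elim j 0]
    have c : coeff (Finsupp.single j i) g ≠ 0 := fun c => g0 (by rw [e, c]; simp)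
    have := I.mul_mem_left (C (coeff (Finsupp.single j i) g)⁻¹) hg
    rwa [e, coeff_C_mul, coeff_X_pow, if_pos rfl, mul_one, ← mul_assoc, ← map_mul, inv_mul_cancel₀ c,
      map_one, mul_comm] at this).trans (by simp)
  obtain ⟨i, hi⟩ := hD.exists
  simp [z, ← hi]

theorem fac {g : S 2} {k : ℕ} (h : g.IsHomogeneous (1 + k)) :
    ∃ l q : S 2, l.IsHomogeneous 1 ∧ q.IsHomogeneous k ∧ g = l * q := by
  set p := aeval ![Polynomial.X, (1 : Polynomial ℂ)] g with hp
  have d : p.natDegree ≤ (1 + k) * 1 := aeval_natDegree_le g h.totalDegree_le _ fun i => by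
    fin_cases i <;> simp
  obtain ⟨a, b, ha, hb, e⟩ : ∃ a b : Polynomial ℂ, a.natDegree ≤ 1 ∧ b.natDegree ≤ k ∧ p = a * b := by
    by_cases c : p.natDegree ≤ k
    · exact ⟨1, p, by simp, c, by simp⟩
    · obtain ⟨z, hz⟩ := Complex.exists_root (f := p) (Polynomial.natDegree_pos_iff_degree_pos.mp (by omega))
      obtain ⟨b, hb⟩ := Polynomial.dvd_iff_isRoot.mpr hz
      refine ⟨_, b, by simp, ?_, hb⟩
      have b0 : b ≠ 0 := by rintro rfl; simp [hb] at c
      rw [hb, (Polynomial.monic_X_sub_C z).natDegree_mul' b0, Polynomial.natDegree_X_sub_C] at d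
      omega
  exact ⟨_, _, Polynomial.isHomogeneous_homogenize a, Polynomial.isHomogeneous_homogenize b, by
    rw [← Polynomial.homogenize_mul a b ha hb, ← e, Polynomial.homogenize_eq_of_isHomogeneous h rfl]⟩

theorem nzd {I : Ideal (S 2)} (hI : Sat I) : ∃ l : S 2, l.IsHomogeneous 1 ∧ ∀ q, l * q ∈ I → q ∈ I := by
  by_contra hc
  push Not at hc
  have : ∀ c : ℂ, ∃ P ∈ associatedPrimes (S 2) (S 2 ⧸ I), X 1 - C c * X 0 ∈ P := fun c => by
    obtain ⟨q, q1, q2⟩ := hc (X 1 - C c * X 0) ((isHomogeneous_X _ _).sub ((isHomogeneous_X _ _).C_mul _))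
    have := (biUnion_associatedPrimes_eq_zero_divisors (S 2) (S 2 ⧸ I)).ge
      ⟨Ideal.Quotient.mk I q, mt Ideal.Quotient.eq_zero_iff_mem.mp q2, Ideal.Quotient.eq_zero_iff_mem.mpr q1⟩
    simpa using this
  choose P h1 h2 using this
  obtain ⟨a, -, b, -, ab, e⟩ := Set.infinite_univ.exists_ne_map_eq_of_mapsTo (fun c _ => h1 c)
    (associatedPrimes.finite _ _)
  obtain ⟨hp, x, hx⟩ := isAssociatedPrime_iff.mp (h1 b)
  obtain ⟨x, rfl⟩ := Ideal.Quotient.mk_surjective x
  have m : ∀ r, r ∈ P b ↔ r * x ∈ I := fun r => by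
    rw [hx, Submodule.mem_colon_singleton]; exact Ideal.Quotient.eq_zero_iff_mem
  have x0 : X 0 ∈ P b := by
    have := (P b).mul_mem_left (C (a - b)⁻¹) ((P b).sub_mem (h2 b) (e ▸ h2 a))
    rwa [show X 1 - C b * X 0 - (X 1 - C a * X 0) = C (a - b) * (X 0 : S 2) by rw [map_sub]; ring,
      ← mul_assoc, ← map_mul, inv_mul_cancel₀ (sub_ne_zero.mpr ab), map_one, one_mul] at this
  have x1 : X 1 ∈ P b := by simpa using (P b).add_mem (h2 b) ((P b).mul_mem_left (C b) x0)
  refine hp.ne_top ((Ideal.eq_top_iff_one _).mpr ((m 1).mpr ?_))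
  rw [one_mul]
  refine hI.2 x ⟨1, fun i => ?_⟩
  fin_cases i
  exacts [by simpa using (m _).mp x0, by simpa using (m _).mp x1]

theorem mono {I : Ideal (S 2)} (hI : Sat I) : Monotone (hf I) := by
  obtain ⟨l, hl, h⟩ := nzd hI
  refine monotone_nat_of_le_succ fun i => ?_
  have inj : Function.Injective (LinearMap.mulLeft ℂ (Ideal.Quotient.mk I l)) := by
    rw [← LinearMap.ker_eq_bot, Submodule.eq_bot_iff]
    intro x hx
    obtain ⟨x, rfl⟩ := Ideal.Quotient.mk_surjective x
    exact Ideal.Quotient.eq_zero_iff_mem.mpr (h x (Ideal.Quotient.eq_zero_iff_mem.mp hx))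
  rw [hf, (Submodule.equivMapOfInjective _ inj _).finrank_eq]
  refine Submodule.finrank_mono ?_
  rintro _ ⟨_, ⟨q, hq, rfl⟩, rfl⟩
  exact ⟨l * q, add_comm 1 i ▸ hl.mul hq, rfl⟩

theorem up2 (d : ℕ) : M 2 d ≤ d := by
  classical
  refine sSup_le ?_
  rintro _ ⟨f, I, D, f0, fd, hI, hD, hr, rfl⟩
  have ex : ∃ k, ∃ g ∈ I, g.IsHomogeneous k ∧ g ≠ 0 := by
    by_contra hc
    push Not at hc
    obtain ⟨i, h1, h2⟩ := (hD.and (Filter.eventually_ge_atTop D)).exists
    rw [hf_low (hc i), show 2 + i - 1 = i + 1 by omega, Nat.choose_succ_self_right] at h1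
    omega
  obtain ⟨g, g1, g2, g0⟩ := Nat.find_spec ex
  have low : ∀ k < Nat.find ex, ∀ q ∈ I, q.IsHomogeneous k → q = 0 := fun k hk q h1 h2 =>
    by_contra fun h => Nat.find_min ex hk ⟨q, h1, h2, h⟩
  generalize Nat.find ex = e at g2 low
  obtain ⟨e, rfl⟩ : ∃ k, e = 1 + k := by
    refine ⟨e - 1, by_contra fun h => one_not f0 hr.1 ?_⟩
    obtain rfl : e = 0 := by omega
    have c := totalDegree_eq_zero_iff_eq_C.mp (Nat.le_zero.mp g2.totalDegree_le)
    have := I.mul_mem_left (C (coeff 0 g)⁻¹) g1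
    rwa [c, coeff_zero_C, ← map_mul, inv_mul_cancel₀ fun h => g0 (by rw [c, h, map_zero])] at this
  have h1 : hf I e = e + 1 := by
    rw [hf_low (low e (by omega)), show 2 + e - 1 = e + 1 by omega, Nat.choose_succ_self_right]
  have h2 : hf I e = D := by
    obtain ⟨i, i1, i2⟩ := (hD.and (Filter.eventually_ge_atTop (1 + e))).exists
    obtain ⟨i, rfl⟩ := Nat.exists_eq_add_of_le i2
    refine le_antisymm (i1 ▸ mono hI (by omega)) ?_
    have a := rk (homogeneousSubmodule (Fin 2) ℂ (1 + e + i)) (Ideal.Quotient.mkₐ ℂ I).toLinearMap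
    have inj : Function.Injective (LinearMap.mulLeft ℂ g) := mul_right_injective₀ g0
    have b : finrank ℂ (homogeneousSubmodule (Fin 2) ℂ i) ≤ finrank ℂ ↥(homogeneousSubmodule (Fin 2) ℂ
        (1 + e + i) ⊓ LinearMap.ker (Ideal.Quotient.mkₐ ℂ I).toLinearMap) := by
      rw [(Submodule.equivMapOfInjective _ inj _).finrank_eq]
      refine Submodule.finrank_mono ?_
      rintro _ ⟨q, hq, rfl⟩
      exact ⟨g2.mul hq, Ideal.Quotient.eq_zero_iff_mem.mpr (I.mul_mem_right _ g1)⟩
    rw [fr, show 2 + i - 1 = i + 1 by omega, Nat.choose_succ_self_right] at b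
    rw [fr, show 2 + (1 + e + i) - 1 = 1 + e + i + 1 by omega, Nat.choose_succ_self_right] at a
    unfold hf at i1
    omega
  refine Nat.cast_le.mpr ((Nat.sInf_le (s := {i | hf I i = D}) h2).trans (by_contra fun hd => ?_))
  obtain ⟨l, q, hl, hq, rfl⟩ := fac g2
  have m : ∀ r, r ∈ I.colon {l} ↔ l * r ∈ I := fun r => by
    rw [Submodule.mem_colon_singleton, smul_eq_mul, mul_comm]
  have J : ∀ r ∈ I.colon {l}, ∀ k, homogeneousComponent k r ∈ I.colon {l} := fun r h k => by
    rw [m, ← hc_mul hl]; exact hI.1 _ ((m r).mp h) _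
  refine hr.2 (I.colon {l}) ⟨J, fun r ⟨N, h⟩ => (m r).mpr (hI.2 _ ⟨N, fun i => ?_⟩)⟩
    (lt_of_le_of_ne (fun r h => (m r).mpr (I.mul_mem_left _ h)) fun h => ?_) fun r h => act_high fd fun a ha => ?_
  · rw [mul_left_comm]; exact (m _).mp (h i)
  · exact right_ne_zero_of_mul g0 (low e (by omega) q (h ▸ (m q).mpr g1) hq)
  · by_contra hc
    have := low _ (by omega) _ ((m _).mp (J r h a.degree)) (hl.mul (homogeneousComponent_isHomogeneous _ _))
    have := congrArg (coeff a) ((mul_eq_zero.mp this).resolve_left (left_ne_zero_of_mul g0))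
    rw [coeff_homogeneousComponent, if_pos rfl] at this
    exact mem_support_iff.mp ha this

end Pool.Agent.H.MP_254873_ag
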