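import Pool.Agent.H.MP_254873_ag.A

set_option autoImplicit false
open MvPolynomial Module

namespace Pool.Agent.H.MP_254873_ag
variable {n : ℕ} (e : Fin n → ℕ) (c : ℕ)

abbrev A (c : ℕ) := AdjoinRoot ((Polynomial.X : Polynomial ℂ) ^ (c + 1))
noncomputable def p0 : S n →ₐ[ℂ] Polynomial ℂ := aeval fun i => Polynomial.X ^ e i
noncomputable def pi : S n →ₐ[ℂ] A c := (AdjoinRoot.mkₐ _).comp (p0 e)
noncomputable def psi : S n →ₐ[ℂ] Polynomial (A c) :=
  aeval fun i => Polynomial.C (pi e c (X i)) * Polynomial.X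
def wt (a : Fin n →₀ ℕ) : ℕ := ∑ i, e i * a i

theorem p0_mon (a : Fin n →₀ ℕ) (r : ℂ) : p0 e (monomial a r) = Polynomial.monomial (wt e a) r := by
  rw [p0, aeval_monomial, Finsupp.prod_fintype _ _ (by simp), ← Polynomial.C_mul_X_pow_eq_monomial]
  simp only [← pow_mul, Finset.prod_pow_eq_pow_sum, wt, Polynomial.algebraMap_eq]

theorem p0_coeff (g : S n) (r : ℕ) : (p0 e g).coeff r = ∑ a ∈ g.support, if wt e a = r then coeff a g else 0 := by
  conv_lhs => rw [g.as_sum]
  simp only [map_sum, p0_mon, Polynomial.finsetSum_coeff, Polynomial.coeff_monomial]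

theorem pi0 (g : S n) : pi e c g = 0 ↔ ∀ r < c + 1, (p0 e g).coeff r = 0 :=
  AdjoinRoot.mk_eq_zero.trans Polynomial.X_pow_dvd_iff

theorem psi_hom {g : S n} {k : ℕ} (h : g.IsHomogeneous k) : psi e c g = Polynomial.monomial k (pi e c g) := by
  rw [g.as_sum, map_sum, map_sum, map_sum]
  refine Finset.sum_congr rfl fun a ha => ?_
  rw [← dg h (mem_support_iff.mp ha), monomial_eq, Finsupp.prod_fintype _ _ (by simp),
    ← Polynomial.C_mul_X_pow_eq_monomial, Finsupp.degree_eq_sum]
  simp [psi, mul_pow, Finset.prod_mul_distrib, Finset.prod_pow_eq_pow_sum, mul_assoc,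
    Polynomial.algebraMap_apply, ← algebraMap_eq]

theorem psi_coeff (g : S n) (k : ℕ) : (psi e c g).coeff k = pi e c (homogeneousComponent k g) := by
  conv_lhs => rw [← g.sum_homogeneousComponent]
  simp only [map_sum, psi_hom e c (homogeneousComponent_isHomogeneous _ _), Polynomial.finsetSum_coeff,
    Polynomial.coeff_monomial, Finset.sum_ite_eq', Finset.mem_range]
  split_ifs with h
  · rfl
  · rw [homogeneousComponent_eq_zero _ _ (by omega), map_zero]

noncomputable def II : Ideal (S n) := RingHom.ker (psi e c)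

theorem II_hom {g : S n} {k : ℕ} (h : g.IsHomogeneous k) : g ∈ II e c ↔ pi e c g = 0 := by
  rw [II, RingHom.mem_ker, psi_hom e c h, Polynomial.monomial_eq_zero_iff]

theorem II_hc {g : S n} (h : g ∈ II e c) (k : ℕ) : pi e c (homogeneousComponent k g) = 0 := by
  rw [← psi_coeff, RingHom.mem_ker.mp h, Polynomial.coeff_zero]

theorem II_sat {i0 : Fin n} (h0 : e i0 = 0) : Sat (II e c) :=
  ⟨fun _ h k => (II_hom e c (homogeneousComponent_isHomogeneous _ _)).mpr (II_hc e c h k), fun g ⟨N, h⟩ => by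
    have := RingHom.mem_ker.mp (h i0)
    rw [map_mul, map_pow, psi, aeval_X, show pi e c (X i0) = 1 by simp [pi, p0, h0], map_one, one_mul] at this
    exact (Polynomial.monic_X_pow N).mul_right_eq_zero_iff.mp this⟩

theorem II_hf (i : ℕ) :
    hf (II e c) i = finrank ℂ ((homogeneousSubmodule (Fin n) ℂ i).map (pi e c).toLinearMap) := by
  have a := rk (homogeneousSubmodule (Fin n) ℂ i) (Ideal.Quotient.mkₐ ℂ (II e c)).toLinearMap
  have b := rk (homogeneousSubmodule (Fin n) ℂ i) (pi e c).toLinearMap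
  rw [show homogeneousSubmodule (Fin n) ℂ i ⊓ (Ideal.Quotient.mkₐ ℂ (II e c)).toLinearMap.ker =
    homogeneousSubmodule (Fin n) ℂ i ⊓ (pi e c).toLinearMap.ker from Submodule.ext fun g =>
      and_congr_right fun h => Ideal.Quotient.eq_zero_iff_mem.trans (II_hom e c h)] at a
  unfold hf
  omega

theorem frA : finrank ℂ (A c) = c + 1 :=
  finrank_quotient_span_eq_natDegree.trans (Polynomial.natDegree_X_pow _)

instance : Module.Finite ℂ (A c) := Module.finite_of_finrank_pos (by rw [frA]; omega)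

theorem ex {d r N : ℕ} {i0 i1 : Fin n} (h0 : e i0 = 0) (h1 : e i1 = 1) (h2 : ∀ i ≠ i0, 1 ≤ e i)
    (s : Fin n →₀ ℕ) (sd : s.degree = d) (sw : wt e s = c)
    (hu : ∀ a ≤ s, ∀ b : Fin n →₀ ℕ, b.degree = a.degree → wt e b = wt e a → b = a)
    (hr : r ≤ c) (hN : ∀ a : Fin n →₀ ℕ, a.degree < N → wt e a ≠ r) : (N : ℕ∞) ≤ M n d := by
  classical
  have x0 : p0 e (X i0) = 1 := by simp [p0, h0]
  have x1 : p0 e (X i1) = Polynomial.X := by simp [p0, h1]
  have big : ∀ i ≥ c, hf (II e c) i = c + 1 := fun i hi => by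
    rw [II_hf]
    suffices h : (homogeneousSubmodule (Fin n) ℂ i).map (pi e c).toLinearMap = ⊤ by rw [h, finrank_top, frA]
    rw [eq_top_iff, ← (AdjoinRoot.powerBasis' (Polynomial.monic_X_pow (c + 1))).basis.span_eq, Submodule.span_le]
    rintro _ ⟨j, rfl⟩
    have : j.1 < c + 1 := j.2.trans_eq (Polynomial.natDegree_X_pow _)
    refine ⟨X i0 ^ (i - j) * X i1 ^ j.1, ?_, ?_⟩
    · simpa [show i - j + j = i by omega] using
        ((isHomogeneous_X ℂ i0).pow (i - j)).mul ((isHomogeneous_X ℂ i1).pow j)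
    · rw [PowerBasis.basis_eq_pow]; simp [pi, x0, x1]
  refine le_trans (Nat.cast_le.mpr ?_) (le_sSup ⟨monomial s 1, II e c, c + 1, by simp,
    isHomogeneous_monomial _ sd, II_sat e c h0, Filter.eventually_atTop.mpr ⟨c, big⟩, ⟨?_, ?_⟩, rfl⟩)
  · refine le_csInf ⟨c, big c le_rfl⟩ fun i hi => by_contra fun hc => ?_
    rw [Set.mem_ofPred_eq, II_hf] at hi
    obtain ⟨g, g1, g2⟩ := (Submodule.eq_top_of_finrank_eq (hi.trans (frA c).symm)).ge
      (Submodule.mem_top (x := AdjoinRoot.mk _ (Polynomial.X ^ r)))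
    have := Polynomial.X_pow_dvd_iff.mp ((AdjoinRoot.mk_eq_mk (g := p0 e g)).mp g2) r (by omega)
    rw [Polynomial.coeff_sub, p0_coeff, Finset.sum_eq_zero fun a ha =>
      if_neg (hN a (by rw [dg g1 (mem_support_iff.mp ha)]; omega))] at this
    simp at this
  · intro g hg
    refine Finset.sum_eq_zero fun a ha => ?_
    rw [support_monomial, if_neg one_ne_zero, Finset.sum_singleton]
    by_cases h : a ≤ s
    · have := (pi0 e c _).mp (II_hc e c hg a.degree) (wt e a) (Nat.lt_succ_of_le (sw ▸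
        Finset.sum_le_sum fun i _ => Nat.mul_le_mul_left _ (h i)))
      rw [p0_coeff, Finset.sum_eq_single a (fun b hb ne => if_neg fun w => ne (hu a h b
        (dg (homogeneousComponent_isHomogeneous _ _) (mem_support_iff.mp hb)) w))
        (fun h => by rw [if_pos rfl, notMem_support_iff.mp h]), if_pos rfl, coeff_homogeneousComponent,
        if_pos rfl] at this
      simp [this]
    · obtain ⟨i, hi⟩ := not_forall.mp h
      rw [Finset.prod_eq_zero (Finset.mem_univ i) (by simp [Nat.descFactorial_of_lt (not_le.mp hi)]),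
        mul_zero, map_zero]
  · intro J hJ lt ap
    obtain ⟨g, g1, g2⟩ := SetLike.exists_of_lt lt
    obtain ⟨k, hk⟩ : ∃ k, pi e c (homogeneousComponent k g) ≠ 0 := by
      by_contra hc
      push Not at hc
      exact g2 (RingHom.mem_ker.mpr (Polynomial.ext fun k => by rw [psi_coeff, hc, Polynomial.coeff_zero]))
    have q1 := hJ.1 g g1 k
    have q2 := homogeneousComponent_isHomogeneous k g
    generalize homogeneousComponent k g = q at hk q1 q2
    have ej : ∃ j, j < c + 1 ∧ (p0 e q).coeff j ≠ 0 := by simpa [pi0] using hk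
    obtain ⟨j1, j2⟩ := Nat.find_spec ej
    have j3 := fun j => Nat.find_min ej (m := j)
    generalize Nat.find ej = j at j1 j2 j3
    have sh : (monomial s (1 : ℂ) : S n).IsHomogeneous d := isHomogeneous_monomial _ sd
    have m1 : X i0 ^ (k + (c - j)) * monomial s 1 ∈ J := by
      have := lt.le ((II_hom e c (g := C ((p0 e q).coeff j)⁻¹ * (q * X i1 ^ (c - j) * X i0 ^ d) -
          X i0 ^ (k + (c - j)) * monomial s 1) (k := k + (c - j) + d)
        (((q2.mul (isHomogeneous_X_pow _ _)).mul (isHomogeneous_X_pow _ _)).C_mul _ |>.sub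
          ((isHomogeneous_X_pow _ _).mul sh))).mpr ((pi0 e c _).mpr fun t ht => ?_))
      · exact (J.sub_mem_iff_right (J.mul_mem_left _ (J.mul_mem_right _ (J.mul_mem_right _ q1)))).mp this
      · simp only [map_sub, map_mul, map_pow, x0, x1, p0_mon, sw, one_pow, mul_one, one_mul, algHom_C,
          Polynomial.algebraMap_eq, Polynomial.coeff_sub, Polynomial.coeff_C_mul, Polynomial.coeff_mul_X_pow',
          Polynomial.coeff_monomial]
        split_ifs with a b b
        · rw [show t - (c - j) = j by omega, inv_mul_cancel₀ j2, sub_self]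
        · rw [not_not.mp fun h => j3 (t - (c - j)) (by omega) ⟨by omega, h⟩]; simp
        · omega
        · simp
    have m2 : monomial s 1 ∈ J := hJ.2 _ ⟨k + (c - j) + 1, fun i => by
      rw [pow_succ']
      by_cases h : i = i0
      · rw [h, mul_assoc]; exact J.mul_mem_left _ m1
      · rw [mul_comm (X i), mul_assoc]
        refine J.mul_mem_left _ (lt.le ((II_hom e c ((isHomogeneous_X ℂ i).mul sh)).mpr
          ((pi0 e c _).mpr fun t ht => ?_)))
        have := h2 i h
        rw [map_mul, p0_mon, sw, p0, aeval_X, Polynomial.coeff_X_pow_mul', Polynomial.coeff_monomial]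
        split_ifs <;> first | rfl | omega⟩
    have := ap _ m2
    simp [act, support_monomial, Finset.prod_eq_zero_iff, Nat.factorial_ne_zero] at this

theorem lo2 (d : ℕ) : (d : ℕ∞) ≤ M 2 d := by
  refine ex ![0, 1] d (i0 := 0) (i1 := 1) (r := d) rfl rfl (by decide) (Finsupp.single 1 d) (by simp)
    (by simp [wt]) (fun a _ b h1 h2 => ?_) le_rfl fun a h => ?_
  · simp [wt, Finsupp.degree_eq_sum] at h1 h2
    ext i; fin_cases i <;> simp <;> omega
  · simp [wt, Finsupp.degree_eq_sum] at h ⊢; omega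

theorem lo3 (n d N : ℕ) : (N : ℕ∞) ≤ M (n + 3) (d + 1) := by
  set c := N + d + 2
  have w : ∀ a : Fin (n + 3) →₀ ℕ, wt (Fin.cons 0 (Fin.cons 1 (Fin.cons c fun _ => c + 1))) a =
      a 1 + c * a 2 + (c + 1) * ∑ i : Fin n, a i.succ.succ.succ := fun a => by
    simp [wt, Fin.sum_univ_succ, Finset.mul_sum, add_assoc]
  have g : ∀ a : Fin (n + 3) →₀ ℕ, a.degree = a 0 + a 1 + a 2 + ∑ i : Fin n, a i.succ.succ.succ := fun a => by
    simp [Finsupp.degree_eq_sum, Fin.sum_univ_succ, add_assoc]
  have n0 : ∀ i : Fin n, i.succ.succ.succ ≠ 0 := fun i => Fin.succ_ne_zero _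
  have n2 : ∀ i : Fin n, i.succ.succ.succ ≠ 2 := fun i h =>
    absurd (show i.1 + 1 + 1 + 1 = 2 from congrArg Fin.val h) (by omega)
  have n02 : (0 : Fin (n + 3)) ≠ 2 := fun h => absurd (show 0 = 2 from congrArg Fin.val h) (by omega)
  have n12 : (1 : Fin (n + 3)) ≠ 2 := fun h => absurd (show 1 = 2 from congrArg Fin.val h) (by omega)
  have u : ∀ k x : ℕ, x = 0 ∨ x = 1 ∧ k * x = k ∨ 2 ≤ x ∧ k * 2 ≤ k * x := fun k x => by
    rcases x with _ | _ | x
    exacts [.inl rfl, by simp, .inr (.inr ⟨by omega, Nat.mul_le_mul_left _ (by omega)⟩)]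
  refine ex _ c (i0 := 0) (i1 := 1) (r := c - 1) rfl rfl (fun i h => ?_)
    (Finsupp.single 0 d + Finsupp.single 2 1) (by simp) (by rw [w]; simp [n0, n2, n12, n02.symm])
    (fun a ha b h1 h2 => ?_) (by omega) fun a h => ?_
  · revert h
    refine Fin.cases (by simp) (Fin.cases (by simp) (Fin.cases (fun _ => show 1 ≤ c by omega) (by simp))) i
  · have a0 : a 0 ≤ d := by simpa [n02] using ha 0
    have a1 : a 1 = 0 := by simpa [n12] using ha 1
    have a2 : a 2 ≤ 1 := by simpa [n02.symm] using ha 2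
    have a3 : ∀ i : Fin n, a i.succ.succ.succ = 0 := fun i => by simpa [n0, n2] using ha i.succ.succ.succ
    rw [w, w] at h2
    rw [g, g] at h1
    simp only [a3, a1, Finset.sum_const_zero] at h1 h2
    have := Nat.mul_le_mul_left c a2
    have b3 : ∑ i : Fin n, b i.succ.succ.succ = 0 := by
      have := u (c + 1) (∑ i : Fin n, b i.succ.succ.succ); omega
    have b2 : b 2 = a 2 := by
      rcases u c (a 2) with h | h | h <;> rcases u c (b 2) with k | k | k <;>
        first | omega | (simp only [h, k, b3] at h1 h2; omega)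
    rw [b3, b2] at h1 h2
    ext i
    refine Fin.cases (by omega) (Fin.cases (by simp; omega) (Fin.cases b2 fun i => ?_)) i
    rw [a3, Finset.sum_eq_zero_iff.mp b3 i (Finset.mem_univ _)]
  · rw [w]
    rw [g] at h
    intro hc
    have : a 2 = 0 := by have := u c (a 2); omega
    have : ∑ i : Fin n, a i.succ.succ.succ = 0 := by
      have := u (c + 1) (∑ i : Fin n, a i.succ.succ.succ); omega
    simp only [*] at hc
    omega

end Pool.Agent.H.MP_254873_ag
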