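import Mathlib

set_option autoImplicit false
open MvPolynomial Module

namespace Pool.Agent.H.MP_254873_ag

abbrev S (n : ℕ) := MvPolynomial (Fin n) ℂ

/-- `g` acting on `f` as a constant-coefficient differential operator:
`x^a` sends `y^b` to `(∏ b_i (b_i - 1) ⋯ (b_i - a_i + 1)) y^(b-a)`. -/
noncomputable def act {n : ℕ} (g f : S n) : S n :=
  ∑ a ∈ g.support, ∑ b ∈ f.support,
    monomial (b - a) (coeff a g * coeff b f * ∏ i, ((b i).descFactorial (a i) : ℂ))

/-- Saturated homogeneous ideals (closed subschemes of projective space). -/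
def Sat {n : ℕ} (I : Ideal (S n)) : Prop :=
  (∀ g ∈ I, ∀ k : ℕ, homogeneousComponent k g ∈ I) ∧ ∀ g, (∃ N : ℕ, ∀ i, X i ^ N * g ∈ I) → g ∈ I

/-- The Hilbert function: dimension of the degree `i` part of `S / I`. -/
noncomputable def hf {n : ℕ} (I : Ideal (S n)) (i : ℕ) : ℕ :=
  finrank ℂ ((homogeneousSubmodule (Fin n) ℂ i).map (Ideal.Quotient.mkₐ ℂ I).toLinearMap)

def Apolar {n : ℕ} (I : Ideal (S n)) (f : S n) : Prop := ∀ g ∈ I, act g f = 0

def Irredundant {n : ℕ} (I : Ideal (S n)) (f : S n) : Prop :=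
  Apolar I f ∧ ∀ J, Sat J → I < J → ¬ Apolar J f

/-- The supremum of the regularities of zero-dimensional schemes (of degree `D`) irredundant for a
nonzero form of degree `d` in `n` variables. -/
noncomputable def M (n d : ℕ) : ℕ∞ :=
  sSup {r | ∃ (f : S n) (I : Ideal (S n)) (D : ℕ), f ≠ 0 ∧ f.IsHomogeneous d ∧ Sat I ∧
    (∀ᶠ i in Filter.atTop, hf I i = D) ∧ Irredundant I f ∧ r = (sInf {i | hf I i = D} : ℕ)}

end Pool.Agent.H.MP_254873_ag
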